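import Pool.Agent.L5helper98.ID.Defs

/-!
# Piece TRI (helper98): the triangle function is positive definite
-/

set_option autoImplicit false

open MeasureTheory Filter Topology Set

namespace Pool.Agent.L5helper65.ID

open Pool.Agent.L5helper98.ID

theorem swap (f : ℝ → ℝ) (hf : Continuous f) (hc : HasCompactSupport f) (G : ℝ → ℝ)
    (hG : Measurable G) (B : ℝ) (hB : ∀ u, |G u| ≤ B) (t : ℝ) :
    ∫ y, f y * (∫ u in Icc (y - t) y, G u) = ∫ u, G u * (∫ y in Icc u (u + t), f y) := by
  have hS : MeasurableSet {p : ℝ × ℝ | p.1 - t ≤ p.2 ∧ p.2 ≤ p.1} :=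
    (measurableSet_le (measurable_fst.sub_const t) measurable_snd).inter
      (measurableSet_le measurable_snd measurable_fst)
  obtain ⟨R, hR⟩ : ∃ R : ℝ, ∀ x, f x ≠ 0 → x ∈ Icc (-R) R := by
    obtain ⟨R, hR⟩ := hc.isCompact.isBounded.subset_closedBall (0 : ℝ)
    refine ⟨R, fun x hx => ?_⟩
    have h1 := hR (subset_tsupport f hx)
    rw [Real.closedBall_eq_Icc] at h1
    simpa using h1
  obtain ⟨M, hM⟩ := hf.bounded_above_of_compact_support hc
  let K : ℝ → ℝ → ℝ := fun y u =>
    {p : ℝ × ℝ | p.1 - t ≤ p.2 ∧ p.2 ≤ p.1}.indicator (fun p => f p.1 * G p.2) (y, u)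
  have hK1 : ∀ y u, K y u = f y * (Icc (y - t) y).indicator G u := by
    intro y u
    by_cases h : y - t ≤ u ∧ u ≤ y
    · have h1 : (y, u) ∈ {p : ℝ × ℝ | p.1 - t ≤ p.2 ∧ p.2 ≤ p.1} := h
      have h2 : u ∈ Icc (y - t) y := h
      change Set.indicator _ _ _ = _
      rw [indicator_of_mem h1, indicator_of_mem h2]
    · have h1 : (y, u) ∉ {p : ℝ × ℝ | p.1 - t ≤ p.2 ∧ p.2 ≤ p.1} := h
      have h2 : u ∉ Icc (y - t) y := h
      change Set.indicator _ _ _ = _
      rw [indicator_of_notMem h1, indicator_of_notMem h2, mul_zero]
  have hK2 : ∀ y u, K y u = G u * (Icc u (u + t)).indicator f y := by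
    intro y u
    rw [hK1]
    by_cases h : u ∈ Icc (y - t) y
    · have h2 : y ∈ Icc u (u + t) := ⟨h.2, by linarith [h.1]⟩
      rw [indicator_of_mem h, indicator_of_mem h2, mul_comm]
    · have h2 : y ∉ Icc u (u + t) := fun h3 => h ⟨by linarith [h3.2], h3.1⟩
      rw [indicator_of_notMem h, indicator_of_notMem h2, mul_zero, mul_zero]
  have hint : Integrable (Function.uncurry K) (volume.prod volume) := by
    have h1 : Function.uncurry K = ((Icc (-R) R ×ˢ Icc (-R - t) R) : Set (ℝ × ℝ)).indicator
        (Function.uncurry K) := by
      funext p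
      by_cases hp : p ∈ ((Icc (-R) R ×ˢ Icc (-R - t) R) : Set (ℝ × ℝ))
      · rw [indicator_of_mem hp]
      · rw [indicator_of_notMem hp]
        change K p.1 p.2 = 0
        rw [hK1]
        by_contra hne
        have h2 : f p.1 ≠ 0 := fun h0 => hne (by rw [h0, zero_mul])
        have h3 : p.2 ∈ Icc (p.1 - t) p.1 := by
          by_contra h4
          exact hne (by rw [indicator_of_notMem h4, mul_zero])
        have h4 := hR _ h2
        exact hp ⟨h4, by linarith [h4.1, h3.1], by linarith [h4.2, h3.2]⟩
    rw [h1, integrable_indicator_iff (measurableSet_Icc.prod measurableSet_Icc)]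
    have hmeas : Measurable (Function.uncurry K) :=
      Measurable.indicator ((hf.measurable.comp measurable_fst).mul (hG.comp measurable_snd)) hS
    refine Measure.integrableOn_of_bounded (M := M * B) ?_ hmeas.aestronglyMeasurable ?_
    · rw [Measure.prod_prod]
      exact ENNReal.mul_ne_top (by simp) (by simp)
    · refine Filter.Eventually.of_forall fun p => ?_
      change ‖K p.1 p.2‖ ≤ M * B
      rw [hK1, norm_mul]
      have hM0 : 0 ≤ M := (norm_nonneg _).trans (hM 0)
      have hB0 : 0 ≤ B := (abs_nonneg _).trans (hB 0)
      refine mul_le_mul (hM _) ?_ (norm_nonneg _) hM0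
      refine (norm_indicator_le_norm_self _ _).trans ?_
      exact hB _
  have h := integral_integral_swap hint
  have e1 : ∀ y, ∫ u, K y u = f y * (∫ u in Icc (y - t) y, G u) := by
    intro y
    rw [← integral_indicator measurableSet_Icc, ← integral_const_mul]
    exact integral_congr_ae (Filter.Eventually.of_forall fun u => hK1 y u)
  have e2 : ∀ u, ∫ y, K y u = G u * (∫ y in Icc u (u + t), f y) := by
    intro u
    rw [← integral_indicator measurableSet_Icc, ← integral_const_mul]
    exact integral_congr_ae (Filter.Eventually.of_forall fun y => hK2 y u)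
  rw [← integral_congr_ae (Filter.Eventually.of_forall e1), h]
  exact integral_congr_ae (Filter.Eventually.of_forall e2)

theorem tri_int (t : ℝ) (ht : 0 < t) (x y : ℝ) :
    ∫ u in Icc (y - t) y, (Icc (x - t) x).indicator (fun _ => (1 : ℝ)) u =
      t * tri t (x - y) := by
  rw [setIntegral_indicator measurableSet_Icc, Icc_inter_Icc, setIntegral_const, smul_eq_mul,
    mul_one, Real.volume_real_Icc, tri]
  have h1 : t * max (1 - |x - y| / t) 0 = max (t - |x - y|) 0 := by
    rw [mul_max_of_nonneg _ _ ht.le, mul_zero, mul_sub, mul_one, mul_div_cancel₀ _ ht.ne']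
  rw [h1]
  congr 1
  rcases le_total x y with h | h
  · rw [abs_of_nonpos (by linarith), sup_eq_left.2 (by linarith), inf_eq_right.2 h]
    ring
  · rw [abs_of_nonneg (by linarith), sup_eq_right.2 (by linarith), inf_eq_left.2 h]
    ring

theorem TRI_holds : St_TRI := by
  intro f hf hc
  obtain ⟨M, hM⟩ := hf.bounded_above_of_compact_support hc
  have hM0 : 0 ≤ M := (norm_nonneg _).trans (hM 0)
  have hfi : Integrable f := hf.integrable_of_hasCompactSupport hc
  refine ⟨?_, ?_⟩
  · intro t ht
    let F : ℝ → ℝ := fun u => ∫ y in Icc u (u + t), f y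
    have hFeq : ∀ u, F u = ∫ y in u..(u + t), f y := by
      intro u
      rw [intervalIntegral.integral_of_le (by linarith), ← integral_Icc_eq_integral_Ioc]
    have hFm : Measurable F := by
      have h1 : F = fun u => (∫ y in (0 : ℝ)..(u + t), f y) - ∫ y in (0 : ℝ)..u, f y := by
        funext u
        rw [hFeq, intervalIntegral.integral_interval_sub_left (hf.intervalIntegrable _ _)
          (hf.intervalIntegrable _ _)]
      rw [h1]
      have h2 : Continuous fun u => ∫ y in (0 : ℝ)..u, f y :=
        intervalIntegral.continuous_primitive (fun a b => hf.intervalIntegrable a b) 0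
      exact ((h2.comp (continuous_id.add continuous_const)).sub h2).measurable
    have hFb : ∀ u, |F u| ≤ M * t := by
      intro u
      rw [hFeq]
      have h1 := intervalIntegral.norm_integral_le_of_norm_le_const (a := u) (b := u + t)
        (f := f) (C := M) (fun x _ => hM x)
      rw [add_sub_cancel_left, abs_of_pos ht] at h1
      exact h1
    have h1 : ∀ x, t * ∫ y, tri t (x - y) * f x * f y = f x * ∫ u in Icc (x - t) x, F u := by
      intro x
      have h2 := swap f hf hc ((Icc (x - t) x).indicator fun _ => (1 : ℝ))
        (measurable_const.indicator measurableSet_Icc) 1 (fun u => by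
          by_cases hu : u ∈ Icc (x - t) x
          · rw [indicator_of_mem hu, abs_one]
          · rw [indicator_of_notMem hu, abs_zero]; exact zero_le_one) t
      have h3 : ∫ u, (Icc (x - t) x).indicator (fun _ => (1 : ℝ)) u * F u =
          ∫ u in Icc (x - t) x, F u := by
        rw [← integral_indicator measurableSet_Icc]
        refine integral_congr_ae (Filter.Eventually.of_forall fun u => ?_)
        by_cases hu : u ∈ Icc (x - t) x
        · simp only [indicator_of_mem hu, one_mul]
        · simp only [indicator_of_notMem hu, zero_mul]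
      rw [← h3]
      rw [← h2, ← integral_const_mul, ← integral_const_mul]
      refine integral_congr_ae (Filter.Eventually.of_forall fun y => ?_)
      simp only []
      rw [tri_int t ht]
      ring
    have h4 : t * ∫ x, ∫ y, tri t (x - y) * f x * f y = ∫ u, F u * F u := by
      rw [← integral_const_mul, ← swap f hf hc F hFm (M * t) hFb t]
      exact integral_congr_ae (Filter.Eventually.of_forall h1)
    have h5 : 0 ≤ t * ∫ x, ∫ y, tri t (x - y) * f x * f y := by
      rw [h4]
      exact integral_nonneg fun u => mul_self_nonneg _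
    exact (mul_nonneg_iff_of_pos_left ht).1 h5
  · refine ⟨2 * M * ∫ x, |f x|, ?_⟩
    intro t ht _
    have htri : ∀ x y, |tri t (x - y) * f x * f y| ≤
        (Icc (x - t) (x + t)).indicator (fun _ => |f x| * M) y := by
      intro x y
      by_cases hy : y ∈ Icc (x - t) (x + t)
      · rw [indicator_of_mem hy, abs_mul, abs_mul]
        have h1 : |tri t (x - y)| ≤ 1 := by
          rw [tri, abs_of_nonneg (le_max_right _ _)]
          refine max_le ?_ zero_le_one
          have : 0 ≤ |x - y| / t := by positivity
          linarith
        calc |tri t (x - y)| * |f x| * |f y| ≤ 1 * |f x| * M :=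
              mul_le_mul (mul_le_mul_of_nonneg_right h1 (abs_nonneg _)) (hM y) (abs_nonneg _)
                (by positivity)
          _ = |f x| * M := by ring
      · rw [indicator_of_notMem hy]
        have h1 : tri t (x - y) = 0 := by
          rw [tri]
          refine max_eq_right ?_
          have h2 : t < |x - y| := by
            by_contra h3
            push Not at h3
            have := abs_le.1 h3
            exact hy ⟨by linarith, by linarith⟩
          have h3 : 1 < |x - y| / t := by rwa [one_lt_div ht]
          linarith
        rw [h1, zero_mul, zero_mul, abs_zero]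
    have h1 : ∀ x, ∫ y, |tri t (x - y) * f x * f y| ≤ 2 * M * t * |f x| := by
      intro x
      have h2 : ∫ y, (Icc (x - t) (x + t)).indicator (fun _ => |f x| * M) y =
          2 * M * t * |f x| := by
        rw [integral_indicator measurableSet_Icc, setIntegral_const, Real.volume_real_Icc,
          smul_eq_mul, max_eq_left (by linarith)]
        ring
      rw [← h2]
      refine integral_mono_of_nonneg (Filter.Eventually.of_forall fun y => abs_nonneg _) ?_
        (Filter.Eventually.of_forall fun y => htri x y)
      rw [integrable_indicator_iff measurableSet_Icc]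
      exact integrableOn_const (by simp) 
    calc ∫ x, ∫ y, |tri t (x - y) * f x * f y| ≤ ∫ x, 2 * M * t * |f x| :=
          integral_mono_of_nonneg (Filter.Eventually.of_forall fun x =>
            integral_nonneg fun y => abs_nonneg _) (hfi.abs.const_mul _)
            (Filter.Eventually.of_forall h1)
      _ = 2 * M * (∫ x, |f x|) * t := by rw [integral_const_mul]; ring

end Pool.Agent.L5helper65.ID
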